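import Pool.Agent.W841.PK.Stm

/-! Project PK: one step of the discrete heat equation for the Gaussian distribution function. -/

set_option autoImplicit false

namespace W320.PK

open W841.PK

private lemma gd_nonneg' (x : ℝ) : 0 ≤ gd x := by
  unfold gd; positivity

private lemma hgd (x : ℝ) : HasDerivAt gd (-x * gd x) x := by
  have h1 : HasDerivAt (fun x : ℝ => -x ^ 2 / 2) (-x) x := by
    have := ((hasDerivAt_pow 2 x).neg).div_const 2
    refine this.congr_deriv ?_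
    norm_num
    ring
  have h2 := (h1.exp).div_const (√(2 * Real.pi))
  refine h2.congr_deriv ?_
  unfold gd
  ring

private lemma one_le_sqrt : 1 ≤ √(2 * Real.pi) := by
  rw [Real.one_le_sqrt]
  linarith [Real.pi_gt_three]

private lemma gd_le_exp (x : ℝ) : gd x ≤ Real.exp (-x ^ 2 / 2) := by
  unfold gd
  exact div_le_self (Real.exp_pos _).le one_le_sqrt

private lemma x4gd (x : ℝ) : (1 + x ^ 2 / 2 + x ^ 4 / 8) * gd x ≤ 1 := by
  have h1 : 1 + x ^ 2 / 2 + x ^ 4 / 8 ≤ Real.exp (x ^ 2 / 2) := by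
    have := Real.quadratic_le_exp_of_nonneg (x := x ^ 2 / 2) (by positivity)
    nlinarith
  have h2 := gd_le_exp x
  have h3 : Real.exp (x ^ 2 / 2) * Real.exp (-x ^ 2 / 2) = 1 := by
    rw [← Real.exp_add, ← Real.exp_zero]; congr 1; ring
  calc (1 + x ^ 2 / 2 + x ^ 4 / 8) * gd x
      ≤ Real.exp (x ^ 2 / 2) * Real.exp (-x ^ 2 / 2) :=
        mul_le_mul h1 h2 (gd_nonneg' x) (Real.exp_pos _).le
    _ = 1 := h3

private lemma b0 (x : ℝ) : gd x ≤ 1 := by
  have := x4gd x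
  have h := gd_nonneg' x
  nlinarith [sq_nonneg x, sq_nonneg (x ^ 2), mul_nonneg (sq_nonneg x) h,
    mul_nonneg (sq_nonneg (x ^ 2)) h]

private lemma b2 (x : ℝ) : x ^ 2 * gd x ≤ 2 := by
  have := x4gd x
  have h := gd_nonneg' x
  nlinarith [sq_nonneg x, sq_nonneg (x ^ 2), mul_nonneg (sq_nonneg x) h,
    mul_nonneg (sq_nonneg (x ^ 2)) h]

private lemma b4 (x : ℝ) : x ^ 4 * gd x ≤ 8 := by
  have := x4gd x
  have h := gd_nonneg' x
  nlinarith [sq_nonneg x, sq_nonneg (x ^ 2), mul_nonneg (sq_nonneg x) h,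
    mul_nonneg (sq_nonneg (x ^ 2)) h]

private lemma b1 (x : ℝ) : |x| * gd x ≤ 2 := by
  have h := gd_nonneg' x
  have h1 : |x| ≤ (1 + x ^ 2) / 2 := by
    have := sq_nonneg (|x| - 1)
    have h2 := sq_abs x
    nlinarith
  have := mul_le_mul_of_nonneg_right h1 h
  have := b0 x
  have := b2 x
  nlinarith

private lemma b3 (x : ℝ) : |x| ^ 3 * gd x ≤ 5 := by
  have h := gd_nonneg' x
  have h1 : |x| ^ 3 ≤ (x ^ 2 + x ^ 4) / 2 := by
    have := sq_nonneg (|x| - 1)
    have h2 := sq_abs x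
    have h4 : x ^ 4 = |x| ^ 4 := by
      calc x ^ 4 = (x ^ 2) ^ 2 := by ring
        _ = (|x| ^ 2) ^ 2 := by rw [h2]
        _ = |x| ^ 4 := by ring
    rw [← h2, h4]
    nlinarith [mul_nonneg (sq_nonneg (|x|)) this]
  have := mul_le_mul_of_nonneg_right h1 h
  have := b2 x
  have := b4 x
  nlinarith

/-- first derivative of `gd` -/
private noncomputable def g1 (x : ℝ) : ℝ := -x * gd x

/-- second derivative of `gd` -/
private noncomputable def g2 (x : ℝ) : ℝ := (x ^ 2 - 1) * gd x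

private lemma hg1 (x : ℝ) : HasDerivAt g1 (g2 x) x := by
  have := ((hasDerivAt_id x).neg).mul (hgd x)
  refine this.congr_deriv ?_
  simp only [g2, id, Pi.neg_apply]
  ring

private lemma bg1 (x : ℝ) : |g1 x| ≤ 2 := by
  unfold g1
  rw [abs_mul, abs_neg, abs_of_nonneg (gd_nonneg' x)]
  exact b1 x

private lemma bg2 (x : ℝ) : |g2 x| ≤ 3 := by
  unfold g2
  rw [sub_mul, one_mul]
  have h := gd_nonneg' x
  have := b0 x
  have := b2 x
  have h0 : 0 ≤ x ^ 2 * gd x := by positivity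
  rw [abs_le]; constructor <;> linarith

private lemma bg3 (x : ℝ) : |x * gd x * (3 - x ^ 2) / 2| ≤ 6 := by
  have h := gd_nonneg' x
  have h1 := b1 x
  have h3 := b3 x
  have e : |x * gd x * (3 - x ^ 2) / 2| = |3 * (x * gd x) - x ^ 3 * gd x| / 2 := by
    rw [abs_div, abs_two]; congr 2; ring
  rw [e]
  have : |3 * (x * gd x) - x ^ 3 * gd x| ≤ |3 * (x * gd x)| + |x ^ 3 * gd x| := abs_sub _ _
  rw [abs_mul, abs_mul, abs_mul, abs_of_nonneg h, abs_pow, abs_of_pos (by norm_num : (0:ℝ) < 3)]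
    at this
  linarith

/-- mean value inequality on `[0, h]` -/
private lemma mvi {f f' : ℝ → ℝ} {K h : ℝ} (hh : 0 ≤ h)
    (hf : ∀ x, 0 ≤ x → x ≤ h → HasDerivAt f (f' x) x) (hb : ∀ x, 0 ≤ x → x ≤ h → |f' x| ≤ K)
    (h0 : f 0 = 0) : |f h| ≤ K * h := by
  have := Convex.norm_image_sub_le_of_norm_hasDerivWithin_le (f := f) (f' := f') (C := K)
    (s := Set.Icc 0 h) (x := 0) (y := h) (fun x hx => (hf x hx.1 hx.2).hasDerivWithinAt)
    (fun x hx => hb x hx.1 hx.2) (convex_Icc _ _) ⟨le_rfl, hh⟩ ⟨hh, le_rfl⟩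
  simpa [h0, abs_of_nonneg hh] using this

private lemma lip_of {f f' : ℝ → ℝ} {K : ℝ} (hf : ∀ x, HasDerivAt f (f' x) x)
    (hb : ∀ x, |f' x| ≤ K) (a b : ℝ) : |f a - f b| ≤ K * |a - b| :=
  Convex.norm_image_sub_le_of_norm_hasDerivWithin_le (f := f) (f' := f') (C := K)
    (s := Set.univ) (x := b) (y := a) (fun x _ => (hf x).hasDerivWithinAt)
    (fun x _ => hb x) convex_univ trivial trivial

/-- third order Taylor bound for the symmetric average -/
private lemma taylor {q p p1 p2 : ℝ → ℝ} {K : ℝ} (hq : ∀ x, HasDerivAt q (p x) x)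
    (hp : ∀ x, HasDerivAt p (p1 x) x) (hp1 : ∀ x, HasDerivAt p1 (p2 x) x)
    (hb : ∀ x, |p2 x| ≤ K) (z h : ℝ) (hh : 0 ≤ h) :
    |(q (z + h) + q (z - h)) / 2 - q z - h ^ 2 / 2 * p1 z| ≤ K * h ^ 3 := by
  have hK : 0 ≤ K := (abs_nonneg _).trans (hb 0)
  have e2 : ∀ x, 0 ≤ x → x ≤ h → |(p1 (z + x) + p1 (z - x)) / 2 - p1 z| ≤ K * h := by
    intro x hx hxh
    have h1 := lip_of hp1 hb (z + x) z
    have h2 := lip_of hp1 hb (z - x) z
    have e1 : |z + x - z| = x := by rw [add_sub_cancel_left, abs_of_nonneg hx]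
    have e2 : |z - x - z| = x := by rw [sub_sub_cancel_left, abs_neg, abs_of_nonneg hx]
    rw [e1] at h1
    rw [e2] at h2
    have : K * x ≤ K * h := mul_le_mul_of_nonneg_left hxh hK
    rw [abs_le] at h1 h2 ⊢
    constructor <;> linarith [h1.1, h1.2, h2.1, h2.2]
  have dadd : ∀ (f f' : ℝ → ℝ), (∀ x, HasDerivAt f (f' x) x) → ∀ x,
      HasDerivAt (fun x => f (z + x)) (f' (z + x)) x := by
    intro f f' hf x
    simpa using (hf (z + x)).comp_const_add z x
  have dsub : ∀ (f f' : ℝ → ℝ), (∀ x, HasDerivAt f (f' x) x) → ∀ x,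
      HasDerivAt (fun x => f (z - x)) (-f' (z - x)) x := by
    intro f f' hf x
    simpa using (hf (z - x)).comp_const_sub z x
  have e1 : ∀ x, 0 ≤ x → x ≤ h → |(p (z + x) - p (z - x)) / 2 - x * p1 z| ≤ K * h * h := by
    intro x hx hxh
    have := mvi (f := fun x => (p (z + x) - p (z - x)) / 2 - x * p1 z)
      (f' := fun x => (p1 (z + x) + p1 (z - x)) / 2 - p1 z) (K := K * h) hx
      (fun y _ _ => by
        have := (((dadd p p1 hp y).sub (dsub p p1 hp y)).div_const 2).sub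
          ((hasDerivAt_id y).mul_const (p1 z))
        refine this.congr_deriv ?_
        ring)
      (fun y hy hyx => e2 y hy (hyx.trans hxh)) (by simp)
    exact this.trans (mul_le_mul_of_nonneg_left hxh (by positivity))
  have := mvi (f := fun x => (q (z + x) + q (z - x)) / 2 - q z - x ^ 2 / 2 * p1 z)
      (f' := fun x => (p (z + x) - p (z - x)) / 2 - x * p1 z) (K := K * h * h) hh
      (fun y _ _ => by
        have := ((((dadd q p hq y).add (dsub q p hq y)).div_const 2).sub_const (q z)).sub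
          (((hasDerivAt_pow 2 y).div_const 2).mul_const (p1 z))
        refine this.congr_deriv ?_
        norm_num
        ring)
      (fun y hy hyx => e1 y hy hyx) (by simp)
  calc _ ≤ K * h * h * h := this
    _ = K * h ^ 3 := by ring

/-- derivative of `z / √u` in `u` -/
private lemma hdiv (z u : ℝ) (hu : 0 < u) :
    HasDerivAt (fun u => z / √u) (-(z / √u) / (2 * u)) u := by
  have h1 := (Real.hasDerivAt_sqrt hu.ne').inv (Real.sqrt_pos.2 hu).ne'
  have h2 := h1.const_mul z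
  have hs : √u ≠ 0 := (Real.sqrt_pos.2 hu).ne'
  have hss : √u ^ 2 = u := Real.sq_sqrt hu.le
  refine h2.congr_deriv ?_
  rw [hss]
  field_simp

private lemma vpart (hPh : ∀ x, HasDerivAt Ph (gd x) x) {σ v κ z : ℝ} (hσ : 0 < σ)
    (hv : σ ^ 2 ≤ v) (hκ : 0 ≤ κ) :
    |Ph (z / √(v + κ)) - Ph (z / √v) - κ / 2 * (g1 (z / √v) / v)| ≤ 6 / σ ^ 4 * κ ^ 2 := by
  have hv0 : 0 < v := lt_of_lt_of_le (by positivity) hv
  -- derivative of g1 (z / √u) / u
  have d1 : ∀ u, 0 < u → HasDerivAt (fun u => g1 (z / √u) / u)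
      ((z / √u) * gd (z / √u) * (3 - (z / √u) ^ 2) / 2 / u ^ 2) u := by
    intro u hu
    have h1 := (((hg1 (z / √u)).comp u (hdiv z u hu))).div (hasDerivAt_id u) hu.ne'
    refine h1.congr_deriv ?_
    simp only [id, Function.comp, g1, g2]
    field_simp
    ring
  have b1' : ∀ u, v ≤ u →
      |(z / √u) * gd (z / √u) * (3 - (z / √u) ^ 2) / 2 / u ^ 2| ≤ 6 / σ ^ 4 := by
    intro u hu
    have hu0 : 0 < u := hv0.trans_le hu
    rw [abs_div, abs_of_pos (by positivity : 0 < u ^ 2)]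
    have : σ ^ 4 ≤ u ^ 2 := by
      have h1 : σ ^ 2 ≤ u := hv.trans hu
      calc σ ^ 4 = (σ ^ 2) ^ 2 := by ring
        _ ≤ u ^ 2 := pow_le_pow_left₀ (by positivity) h1 2
    exact div_le_div₀ (by norm_num) (bg3 _) (by positivity) this
  have shift : ∀ (f f' : ℝ → ℝ) (x : ℝ), HasDerivAt f (f' (v + x)) (v + x) →
      HasDerivAt (fun x => f (v + x)) (f' (v + x)) x := by
    intro f f' x hf
    simpa using hf.comp_const_add v x
  have e1 : ∀ x, 0 ≤ x → x ≤ κ →
      |g1 (z / √(v + x)) / (v + x) - g1 (z / √v) / v| ≤ 6 / σ ^ 4 * κ := by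
    intro x hx hxκ
    have := mvi (f := fun x => g1 (z / √(v + x)) / (v + x) - g1 (z / √v) / v)
      (f' := fun x => (z / √(v + x)) * gd (z / √(v + x)) * (3 - (z / √(v + x)) ^ 2) / 2
        / (v + x) ^ 2) (K := 6 / σ ^ 4) hx
      (fun y hy _ => by
        have := (shift (fun u => g1 (z / √u) / u)
          (fun u => (z / √u) * gd (z / √u) * (3 - (z / √u) ^ 2) / 2 / u ^ 2) y
          (d1 (v + y) (by linarith))).sub_const (g1 (z / √v) / v)
        exact this)
      (fun y hy _ => b1' _ (by linarith)) (by simp)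
    exact this.trans (mul_le_mul_of_nonneg_left hxκ (by positivity))
  have d0 : ∀ u, 0 < u → HasDerivAt (fun u => Ph (z / √u)) (g1 (z / √u) / u / 2) u := by
    intro u hu
    have h1 := (hPh (z / √u)).comp u (hdiv z u hu)
    refine h1.congr_deriv ?_
    simp only [g1]
    field_simp
  have := mvi (f := fun x => Ph (z / √(v + x)) - Ph (z / √v) - x / 2 * (g1 (z / √v) / v))
    (f' := fun x => (g1 (z / √(v + x)) / (v + x) - g1 (z / √v) / v) / 2)
    (K := 6 / σ ^ 4 * κ) hκ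
    (fun y hy _ => by
      have := ((shift (fun u => Ph (z / √u)) (fun u => g1 (z / √u) / u / 2) y
        (d0 (v + y) (by linarith))).sub_const (Ph (z / √v))).sub
        (((hasDerivAt_id y).div_const 2).mul_const (g1 (z / √v) / v))
      refine this.congr_deriv ?_
      ring)
    (fun y hy hyκ => by
      have := e1 y hy hyκ
      rw [abs_div, abs_two]
      have h0 : 0 ≤ 6 / σ ^ 4 * κ := by positivity
      linarith) (by simp)
  calc _ ≤ 6 / σ ^ 4 * κ * κ := this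
    _ = _ := by ring

theorem gstep (h : S_Gauss) : S_GStep := by
  obtain ⟨hPh, -, -, -, -, -, -, -, -, -, -⟩ := h
  intro σ hσ
  set C : ℝ := 1 / σ + 2 / σ ^ 2 + 3 / σ ^ 3 + 6 / σ ^ 4 with hC
  have c1 : 0 < 1 / σ := by positivity
  have c2 : 0 < 2 / σ ^ 2 := by positivity
  have c3 : 0 < 3 / σ ^ 3 := by positivity
  have c4 : 0 < 6 / σ ^ 4 := by positivity
  have hs : ∀ v, σ ^ 2 ≤ v → σ ≤ √v := fun v hv => Real.le_sqrt_of_sq_le hv
  have dz : ∀ (s z : ℝ), HasDerivAt (fun z => z / s) (1 / s) z := fun s z =>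
    (hasDerivAt_id z).div_const s
  have D0 : ∀ v, σ ^ 2 ≤ v → ∀ z, HasDerivAt (fun z => Ph (z / √v)) (gd (z / √v) / √v) z := by
    intro v hv z
    have := (hPh (z / √v)).comp z (dz (√v) z)
    refine this.congr_deriv ?_
    ring
  have D1 : ∀ v, σ ^ 2 ≤ v → ∀ z,
      HasDerivAt (fun z => gd (z / √v) / √v) (g1 (z / √v) / √v ^ 2) z := by
    intro v hv z
    have := ((hgd (z / √v)).comp z (dz (√v) z)).div_const (√v)
    refine this.congr_deriv ?_
    simp only [g1]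
    ring
  have D2 : ∀ v, σ ^ 2 ≤ v → ∀ z,
      HasDerivAt (fun z => g1 (z / √v) / √v ^ 2) (g2 (z / √v) / √v ^ 3) z := by
    intro v hv z
    have := ((hg1 (z / √v)).comp z (dz (√v) z)).div_const (√v ^ 2)
    refine this.congr_deriv ?_
    ring
  have B1 : ∀ v, σ ^ 2 ≤ v → ∀ z, |g1 (z / √v) / √v ^ 2| ≤ 2 / σ ^ 2 := by
    intro v hv z
    have h1 := hs v hv
    rw [abs_div, abs_of_nonneg (by positivity : (0:ℝ) ≤ √v ^ 2)]
    exact div_le_div₀ (by norm_num) (bg1 _) (by positivity) (pow_le_pow_left₀ hσ.le h1 2)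
  have B2 : ∀ v, σ ^ 2 ≤ v → ∀ z, |g2 (z / √v) / √v ^ 3| ≤ 3 / σ ^ 3 := by
    intro v hv z
    have h1 := hs v hv
    rw [abs_div, abs_of_nonneg (by positivity : (0:ℝ) ≤ √v ^ 3)]
    exact div_le_div₀ (by norm_num) (bg2 _) (by positivity) (pow_le_pow_left₀ hσ.le h1 3)
  refine ⟨C, by positivity, D0, ?_, ?_, ?_⟩
  · intro v hv z
    have h1 := hs v hv
    rw [abs_div, abs_of_nonneg (gd_nonneg' _), abs_of_nonneg (Real.sqrt_nonneg v)]
    have : gd (z / √v) / √v ≤ 1 / σ := div_le_div₀ (by norm_num) (b0 _) hσ h1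
    linarith
  · intro v hv z z'
    have := lip_of (D1 v hv) (B1 v hv) z z'
    refine this.trans (mul_le_mul_of_nonneg_right ?_ (abs_nonneg _))
    linarith
  · intro v h κ z hv h0 _ k0 _
    have hv0 : 0 < v := lt_of_lt_of_le (by positivity) hv
    have t1 := taylor (D0 v hv) (D1 v hv) (D2 v hv) (B2 v hv) z h h0
    have t2 := vpart (z := z) hPh hσ hv k0
    have t3 := B1 v hv z
    rw [Real.sq_sqrt hv0.le] at t1 t3
    set A := (Ph ((z + h) / √v) + Ph ((z - h) / √v)) / 2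
    set P := Ph (z / √v)
    set P' := Ph (z / √(v + κ))
    set q := g1 (z / √v) / v
    have e : A - P' = (A - P - h ^ 2 / 2 * q) - (P' - P - κ / 2 * q) - (κ - h ^ 2) / 2 * q := by
      ring
    have t4 : |(κ - h ^ 2) / 2 * q| ≤ |κ - h ^ 2| * (2 / σ ^ 2) := by
      rw [abs_mul, abs_div, abs_two]
      have := mul_le_mul_of_nonneg_left t3 (by positivity : 0 ≤ |κ - h ^ 2| / 2)
      have h0 : 0 ≤ |κ - h ^ 2| * (2 / σ ^ 2) := by positivity
      linarith
    rw [e]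
    have tri : |(A - P - h ^ 2 / 2 * q) - (P' - P - κ / 2 * q) - (κ - h ^ 2) / 2 * q| ≤
        |A - P - h ^ 2 / 2 * q| + |P' - P - κ / 2 * q| + |(κ - h ^ 2) / 2 * q| :=
      (abs_sub _ _).trans (add_le_add (abs_sub _ _) le_rfl)
    have hk2 : 0 ≤ κ ^ 2 := sq_nonneg _
    have hh3 : 0 ≤ h ^ 3 := by positivity
    have ha : 0 ≤ |κ - h ^ 2| := abs_nonneg _
    have u1 : 3 / σ ^ 3 * h ^ 3 ≤ C * h ^ 3 := mul_le_mul_of_nonneg_right (by linarith) hh3
    have u2 : 6 / σ ^ 4 * κ ^ 2 ≤ C * κ ^ 2 := mul_le_mul_of_nonneg_right (by linarith) hk2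
    have u3 : 2 / σ ^ 2 * |κ - h ^ 2| ≤ C * |κ - h ^ 2| :=
      mul_le_mul_of_nonneg_right (by linarith) ha
    linarith

end W320.PK
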