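import Pool.Agent.W841.PK.Stm

/-! Project PK: continuity and monotonicity of the heat flow. -/

set_option autoImplicit false

namespace W320.PK

open MeasureTheory W841.PK

private lemma gd_nonneg (x : ℝ) : 0 ≤ gd x := by
  unfold gd; positivity

private lemma integ (h : S_Gauss) {G : ℝ → ℝ} (hm : Measurable G) (hb : ∀ y, 0 ≤ G y ∧ G y ≤ 1)
    (a y : ℝ) : Integrable (fun x => G (y + a * x) * gd x) := by
  obtain ⟨-, -, -, -, -, -, -, hi, -, -, -⟩ := h
  refine Integrable.mono' hi ?_ ?_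
  · exact ((hm.comp (by fun_prop)).aestronglyMeasurable).mul hi.aestronglyMeasurable
  · refine Filter.Eventually.of_forall fun x => ?_
    rw [Real.norm_eq_abs, abs_mul, abs_of_nonneg (gd_nonneg x), abs_of_nonneg (hb _).1]
    exact mul_le_of_le_one_left (gd_nonneg x) (hb _).2

private lemma bounds (h : S_Gauss) {G : ℝ → ℝ} (hm : Measurable G)
    (hb : ∀ y, 0 ≤ G y ∧ G y ≤ 1) (θ y : ℝ) : 0 ≤ heat G θ y ∧ heat G θ y ≤ 1 := by
  have hI := integ h hm hb (√θ) y
  obtain ⟨-, -, -, -, -, -, -, hi, h1, -, -⟩ := h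
  constructor
  · exact integral_nonneg fun x => mul_nonneg (hb _).1 (gd_nonneg x)
  · rw [← h1]
    exact integral_mono hI hi fun x => mul_le_of_le_one_left (gd_nonneg x) (hb _).2

private lemma lips (h : S_Gauss) {G : ℝ → ℝ} {L : ℝ} (hm : Measurable G)
    (hb : ∀ y, 0 ≤ G y ∧ G y ≤ 1) (hL : ∀ x y, |G x - G y| ≤ L * |x - y|) (hL0 : 0 ≤ L)
    (θ θ' y y' : ℝ) : |heat G θ y - heat G θ' y'| ≤ L * (|y - y'| + |√θ - √θ'|) := by
  have hI := integ h hm hb (√θ) y
  have hI' := integ h hm hb (√θ') y'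
  obtain ⟨-, -, -, -, -, -, -, hi, h1, hi2, h2⟩ := h
  unfold heat
  rw [← integral_sub hI hI', ← Real.norm_eq_abs]
  have hbd : Integrable (fun x => L * |y - y'| * gd x + L * |√θ - √θ'| * (|x| * gd x)) :=
    (hi.const_mul _).add (hi2.const_mul _)
  refine (norm_integral_le_of_norm_le hbd (Filter.Eventually.of_forall fun x => ?_)).trans ?_
  · rw [← sub_mul, Real.norm_eq_abs, abs_mul, abs_of_nonneg (gd_nonneg x)]
    have e1 : |G (y + √θ * x) - G (y' + √θ' * x)| ≤ L * (|y - y'| + |√θ - √θ'| * |x|) := by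
      refine (hL _ _).trans (mul_le_mul_of_nonneg_left ?_ hL0)
      rw [← abs_mul]
      calc |y + √θ * x - (y' + √θ' * x)| = |(y - y') + (√θ - √θ') * x| := by ring_nf
        _ ≤ _ := abs_add_le _ _
    calc |G (y + √θ * x) - G (y' + √θ' * x)| * gd x
        ≤ L * (|y - y'| + |√θ - √θ'| * |x|) * gd x := mul_le_mul_of_nonneg_right e1 (gd_nonneg x)
      _ = _ := by ring
  · rw [integral_add (hi.const_mul _) (hi2.const_mul _), integral_const_mul, integral_const_mul,
      h1, mul_one, mul_add]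
    have : L * |√θ - √θ'| * ∫ x, |x| * gd x ≤ L * |√θ - √θ'| * 1 :=
      mul_le_mul_of_nonneg_left h2 (by positivity)
    linarith

theorem heatc (h : S_Gauss) : S_HeatC := by
  intro F L hF hb hL
  have hL0 : 0 ≤ L := by
    have := hL 1 0
    have h2 := abs_nonneg (F 1 - F 0)
    simp only [sub_zero, abs_one, mul_one] at this
    linarith
  have hm : Measurable F := hF.measurable
  have hrb : ∀ B y, 0 ≤ refl B F y ∧ refl B F y ≤ 1 := fun B y => hb _
  have hrm : ∀ B, Measurable (refl B F) := fun B =>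
    hm.comp (by fun_prop)
  have hrL : ∀ B x y, |refl B F x - refl B F y| ≤ L * |x - y| := by
    intro B x y
    refine (hL _ _).trans (mul_le_mul_of_nonneg_left ?_ hL0)
    have := abs_abs_sub_abs_le (x - B) (y - B)
    calc |B + |x - B| - (B + |y - B|)| = abs (|x - B| - |y - B|) := by
          congr 1; ring
      _ ≤ |x - B - (y - B)| := this
      _ = |x - y| := by ring_nf
  refine ⟨?_, fun θ y => bounds h hm hb θ y, ?_, fun θ θ' y y' _ _ => lips h hm hb hL hL0 θ θ' y y',
    fun B θ θ' y y' _ _ => lips h (hrm B) (hrb B) (hrL B) hL0 θ θ' y y', ?_,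
    fun B θ y => bounds h (hrm B) (hrb B) θ y⟩
  · intro θ a b hab
    exact integral_mono (integ h hm hb _ _) (integ h hm hb _ _) fun x =>
      mul_le_mul_of_nonneg_right (hF (by linarith)) (gd_nonneg x)
  · intro y
    obtain ⟨-, -, -, -, -, -, -, hi, h1, -, -⟩ := h
    unfold heat
    simp only [Real.sqrt_zero, zero_mul, add_zero]
    rw [integral_const_mul, h1, mul_one]
  · intro B θ θ' hθ hθθ
    refine integral_mono (integ h (hrm B) (hrb B) _ _) (integ h (hrm B) (hrb B) _ _) fun x =>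
      mul_le_mul_of_nonneg_right ?_ (gd_nonneg x)
    refine hF ?_
    have e1 : B + √θ * x - B = √θ * x := by ring
    have e2 : B + √θ' * x - B = √θ' * x := by ring
    rw [e1, e2, abs_mul, abs_mul, abs_of_nonneg (Real.sqrt_nonneg _),
      abs_of_nonneg (Real.sqrt_nonneg _)]
    have := mul_le_mul_of_nonneg_right (Real.sqrt_le_sqrt hθθ) (abs_nonneg x)
    linarith

end W320.PK
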